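import Mathlib

/-!
# Strong F-regularity of the hypersurface `y ^ p = X_1 ⋯ X_n + ∑ X_l ^ N`, `N ≡ 1 mod p`

(helper25, module (1) of the MP_0afa72_ag plan of helper95)

`A = k[X_1..X_n]`, `B = k[t_1..t_n]`, `A → B` is `expand p` (`X_l ↦ t_l ^ p`), `f = g` is one polynomial
with coefficients `0, 1`, `g ^ p = expand p f`, `R = A[y] / (y ^ p - f)`, `ι : R → B`, `y ↦ g`.
-/

namespace SFR25

open MvPolynomial

noncomputable section

variable {k : Type*} [Field k] {σ : Type*}

/-- The exponent vector divided by `q`, coordinatewise. -/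
def dv (q : ℕ) (m : σ →₀ ℕ) : σ →₀ ℕ := m.mapRange (· / q) (by simp)

@[simp] lemma dv_apply (q : ℕ) (m : σ →₀ ℕ) (l : σ) : dv q m l = m l / q := rfl

open Classical in
/-- The trace `B → A` : the coefficient of `t ^ (p - 1, …, p - 1)` over `k[t ^ p]`. -/
def Tr (p : ℕ) : MvPolynomial σ k →ₗ[k] MvPolynomial σ k :=
  (MvPolynomial.basisMonomials σ k).constr k
    (fun m => if (∀ l, m l % p = p - 1) then monomial (dv p m) 1 else 0)

open Classical in
lemma Tr_monomial (p : ℕ) (m : σ →₀ ℕ) (r : k) :
    Tr p (monomial m r) = if (∀ l, m l % p = p - 1) then monomial (dv p m) r else 0 := by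
  have h1 : (monomial m r : MvPolynomial σ k) = r • (MvPolynomial.basisMonomials σ k) m := by
    simp [MvPolynomial.smul_monomial]
  rw [h1, map_smul, Tr, Module.Basis.constr_basis]
  split_ifs with h
  · simp [MvPolynomial.smul_monomial]
  · simp

lemma dv_add (p : ℕ) (hp : 0 < p) (d m : σ →₀ ℕ) : dv p (p • d + m) = d + dv p m := by
  ext l
  simp [Nat.mul_add_div hp]

lemma Tr_expand_mul (p : ℕ) (hp : 0 < p) (a h : MvPolynomial σ k) :
    Tr p (expand p a * h) = a * Tr p h := by
  classical
  induction a using MvPolynomial.induction_on' with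
  | add a b ha hb => rw [map_add, add_mul, map_add, ha, hb, add_mul]
  | monomial d r =>
    induction h using MvPolynomial.induction_on' with
    | add a b ha hb => rw [mul_add, map_add, ha, hb, map_add, mul_add]
    | monomial m s =>
      rw [expand_monomial, monomial_mul, Tr_monomial, Tr_monomial]
      have h1 : ∀ l, ((p • d + m) l % p = p - 1) ↔ (m l % p = p - 1) := by
        intro l; simp
      simp only [h1]
      split_ifs with h
      · rw [dv_add p hp, monomial_mul]
      · simp

section frobenius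

open Classical in
/-- `k`-linear projection to the coefficient of `t ^ a` over `k[t ^ q]`. -/
def Tq (q : ℕ) (a : σ →₀ ℕ) : MvPolynomial σ k →ₗ[k] MvPolynomial σ k :=
  (MvPolynomial.basisMonomials σ k).constr k
    (fun m => if (∀ l, m l % q = a l) then monomial (dv q m) 1 else 0)

open Classical in
lemma Tq_monomial (q : ℕ) (a m : σ →₀ ℕ) (r : k) :
    Tq q a (monomial m r) = if (∀ l, m l % q = a l) then monomial (dv q m) r else 0 := by
  have h1 : (monomial m r : MvPolynomial σ k) = r • (MvPolynomial.basisMonomials σ k) m := by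
    simp [MvPolynomial.smul_monomial]
  rw [h1, map_smul, Tq, Module.Basis.constr_basis]
  split_ifs with h
  · simp [MvPolynomial.smul_monomial]
  · simp

variable (p : ℕ) [hp : Fact p.Prime] [CharP k p] [PerfectRing k p]

/-- the `p ^ (-e)`-linear projection `B → B` to the coefficient of `t ^ a`. -/
def phi (e : ℕ) (a : σ →₀ ℕ) : MvPolynomial σ k →+ MvPolynomial σ k :=
  ((MvPolynomial.map ((iterateFrobeniusEquiv k p e).symm : k →+* k) :
    MvPolynomial σ k →+* MvPolynomial σ k) : MvPolynomial σ k →+ MvPolynomial σ k).comp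
    (Tq (p ^ e) a).toAddMonoidHom

open Classical in
lemma phi_monomial (e : ℕ) (a m : σ →₀ ℕ) (r : k) :
    phi p e a (monomial m r) = if (∀ l, m l % (p ^ e) = a l)
      then monomial (dv (p ^ e) m) ((iterateFrobeniusEquiv k p e).symm r) else 0 := by
  simp only [phi, AddMonoidHom.comp_apply, LinearMap.toAddMonoidHom_coe, Tq_monomial]
  split_ifs with h
  · simp
  · simp

lemma phi_pow_mul (e : ℕ) (a : σ →₀ ℕ) (r h : MvPolynomial σ k) :
    phi p e a (r ^ (p ^ e) * h) = r * phi p e a h := by
  classical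
  induction r using MvPolynomial.induction_on' with
  | add x y hx hy => rw [add_pow_char_pow, add_mul, map_add, hx, hy, add_mul]
  | monomial d r =>
    induction h using MvPolynomial.induction_on' with
    | add x y hx hy => rw [mul_add, map_add, hx, hy, map_add, mul_add]
    | monomial m s =>
      rw [monomial_pow, monomial_mul, phi_monomial, phi_monomial]
      have h1 : ∀ l, ((p ^ e • d + m) l % (p ^ e) = a l) ↔ (m l % (p ^ e) = a l) := by
        intro l; simp
      simp only [h1]
      split_ifs with h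
      · rw [dv_add _ (pow_pos hp.out.pos e), monomial_mul]
        congr 1
        rw [map_mul]
        congr 1
        rw [RingEquiv.symm_apply_eq, iterateFrobeniusEquiv_def]
      · simp

/-- `B` is strongly `F`-regular. -/
lemma phi_exists (c : MvPolynomial σ k) (hc : c ≠ 0) :
    ∃ e : ℕ, 0 < e ∧ ∃ χ : MvPolynomial σ k →+ MvPolynomial σ k,
      (∀ r x, χ (r ^ (p ^ e) * x) = r * χ x) ∧ χ c = 1 := by
  classical
  obtain ⟨a, ha⟩ := MvPolynomial.support_nonempty.2 hc
  have hca : c.coeff a ≠ 0 := MvPolynomial.mem_support_iff.1 ha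
  obtain ⟨N, hN⟩ : ∃ N, N = c.totalDegree + 1 := ⟨_, rfl⟩
  have hlt : N < p ^ N := Nat.lt_pow_self hp.out.one_lt
  have hdeg : ∀ m ∈ c.support, ∀ l, m l < p ^ N := by
    intro m hm l
    have h1 : m l ≤ c.totalDegree := by
      refine le_trans ?_ (MvPolynomial.le_totalDegree hm)
      by_cases hl : l ∈ m.support
      · exact Finset.single_le_sum (f := fun l => m l) (fun _ _ => Nat.zero_le _) hl
      · rw [Finsupp.notMem_support_iff.1 hl]; exact Nat.zero_le _
    omega
  let χ : MvPolynomial σ k →+ MvPolynomial σ k :=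
    (phi p N a).comp (AddMonoidHom.mulLeft (C (c.coeff a)⁻¹))
  have hχ : ∀ x, χ x = phi p N a (C (c.coeff a)⁻¹ * x) := fun x => rfl
  refine ⟨N, by omega, χ, ?_, ?_⟩
  · intro r x
    rw [hχ, hχ, ← phi_pow_mul]
    congr 1
    ring
  · rw [hχ]
    have h2 : C (c.coeff a)⁻¹ * c = ∑ m ∈ c.support, monomial m ((c.coeff a)⁻¹ * c.coeff m) := by
      have h4 : ∀ u : k, C u * c = ∑ m ∈ c.support, monomial m (u * c.coeff m) := by
        intro u
        conv_lhs => rw [c.as_sum]
        rw [Finset.mul_sum]
        refine Finset.sum_congr rfl (fun m _ => ?_)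
        rw [C_mul_monomial]
      exact h4 _
    rw [h2, map_sum, Finset.sum_eq_single a]
    · rw [phi_monomial, if_pos]
      · have h3 : dv (p ^ N) a = 0 := by
          ext l
          simp only [dv_apply, Finsupp.coe_zero, Pi.zero_apply]
          exact Nat.div_eq_of_lt (hdeg a ha l)
        rw [h3, inv_mul_cancel₀ hca, map_one]
        simp
      · intro l
        exact Nat.mod_eq_of_lt (hdeg a ha l)
    · intro m hm hma
      rw [phi_monomial, if_neg]
      intro h
      apply hma
      ext l
      rw [← h l]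
      exact (Nat.mod_eq_of_lt (hdeg m hm l)).symm
    · intro h
      exact absurd ha h

end frobenius

variable [Fintype σ]

/-- The polynomial `X_1 ⋯ X_n + ∑ X_l ^ (p w + 1)`. -/
def G (k : Type*) [Field k] (σ : Type*) [Fintype σ] (p w : ℕ) : MvPolynomial σ k :=
  (∏ l, X l) + ∑ l, X l ^ (p * w + 1)

open Classical in
/-- the exponent vectors of the monomials of `G` -/
def ex (p w : ℕ) : Option σ → (σ →₀ ℕ)
  | none => Finsupp.equivFunOnFinite.symm (fun _ => 1)
  | some l => Finsupp.single l (p * w + 1)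

lemma G_eq (p w : ℕ) : G k σ p w = ∑ a : Option σ, monomial (ex p w a) 1 := by
  classical
  rw [Fintype.sum_option, G]
  congr 1
  · simp only [ex]
    rw [monomial_eq]
    simp [Finsupp.prod_fintype]
  · refine Finset.sum_congr rfl (fun l _ => ?_)
    simp only [ex]
    rw [X_pow_eq_monomial]

open Classical in
/-- `1` if the factor contributes `1` modulo `p` to the exponent of `t_l`. -/
def hh {i : ℕ} (F : Fin i → Option σ) (l : σ) (j : Fin i) : ℕ :=
  if F j = none ∨ F j = some l then 1 else 0

lemma ex_apply (p w : ℕ) {i : ℕ} (F : Fin i → Option σ) (l : σ) (j : Fin i) :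
    ∃ u : ℕ, ex p w (F j) l = hh F l j + p * u := by
  classical
  rcases hF : F j with _ | l'
  · exact ⟨0, by simp [ex, hh, hF]⟩
  · by_cases h : l' = l
    · subst h
      exact ⟨w, by simp [ex, hh, hF, add_comm]⟩
    · exact ⟨0, by simp [ex, hh, hF, h]⟩

lemma sum_ex_apply (p w : ℕ) {i : ℕ} (F : Fin i → Option σ) (l : σ) :
    (∑ j, ex p w (F j)) l % p = (∑ j, hh F l j) % p := by
  choose u hu using ex_apply p w F l
  rw [Finsupp.finsetSum_apply]
  rw [Finset.sum_congr rfl (fun j _ => hu j), Finset.sum_add_distrib, ← Finset.mul_sum]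
  simp

omit [Fintype σ] in
lemma sum_hh_le {i : ℕ} (F : Fin i → Option σ) (l : σ) : ∑ j, hh F l j ≤ i := by
  classical
  calc ∑ j, hh F l j ≤ ∑ _j : Fin i, 1 := Finset.sum_le_sum (fun j _ => by unfold hh; split_ifs <;> omega)
    _ = i := by simp

omit [Fintype σ] in
lemma sum_hh_eq {i : ℕ} (F : Fin i → Option σ) (l : σ) (h : ∑ j, hh F l j = i) (j : Fin i) :
    F j = none ∨ F j = some l := by
  classical
  by_contra hj
  have h1 : ∑ j, hh F l j < ∑ _j : Fin i, 1 := by
    refine Finset.sum_lt_sum (fun j _ => by unfold hh; split_ifs <;> omega) ⟨j, Finset.mem_univ _, ?_⟩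
    simp [hh, hj]
  simp [h] at h1

lemma G_pow (p w i : ℕ) :
    (G k σ p w) ^ i = ∑ F : Fin i → Option σ, monomial (∑ j, ex p w (F j)) 1 := by
  rw [G_eq, Fintype.sum_pow]
  refine Finset.sum_congr rfl (fun F _ => ?_)
  rw [monomial_sum_one]

lemma Tr_G_pow_lt [Nonempty σ] (p w i : ℕ) (hi : i < p - 1) : Tr p ((G k σ p w) ^ i) = 0 := by
  classical
  rw [G_pow, map_sum]
  refine Finset.sum_eq_zero (fun F _ => ?_)
  rw [Tr_monomial, if_neg]
  intro h
  obtain ⟨l⟩ := ‹Nonempty σ›
  have h1 := h l
  rw [sum_ex_apply] at h1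
  have h2 := sum_hh_le F l
  rw [Nat.mod_eq_of_lt (by omega)] at h1
  omega

lemma Tr_G_pow [Nontrivial σ] (p w : ℕ) (hp : 0 < p) : Tr p ((G k σ p w) ^ (p - 1)) = 1 := by
  classical
  rw [G_pow, map_sum]
  rw [Finset.sum_eq_single (fun _ => none)]
  · rw [Tr_monomial, if_pos]
    · have h0 : dv p (∑ j : Fin (p - 1), ex p w (none : Option σ)) = 0 := by
        ext l
        simp only [dv_apply, Finsupp.coe_zero, Pi.zero_apply]
        rw [Finsupp.finsetSum_apply]
        simp only [ex, Finsupp.equivFunOnFinite_symm_apply_apply, Finset.sum_const, Finset.card_univ,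
          Fintype.card_fin, smul_eq_mul, mul_one]
        exact Nat.div_eq_of_lt (by omega)
      rw [h0]
      simp
    · intro l
      rw [sum_ex_apply]
      have h1 : ∑ j : Fin (p - 1), hh (fun _ => (none : Option σ)) l j = p - 1 := by
        simp [hh]
      rw [h1]
      exact Nat.mod_eq_of_lt (by omega)
  · intro F _ hF
    rw [Tr_monomial, if_neg]
    intro h
    apply hF
    have key : ∀ l, ∑ j, hh F l j = p - 1 := by
      intro l
      have h1 := h l
      rw [sum_ex_apply] at h1
      have h2 := sum_hh_le F l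
      rwa [Nat.mod_eq_of_lt (by omega)] at h1
    obtain ⟨l₁, l₂, hl⟩ := exists_pair_ne σ
    funext j
    rcases sum_hh_eq F l₁ (key l₁) j with h1 | h1
    · exact h1
    · rcases sum_hh_eq F l₂ (key l₂) j with h2 | h2
      · exact h2
      · rw [h1] at h2
        exact absurd (Option.some_injective _ h2) hl
  · intro h
    exact absurd (Finset.mem_univ _) h

/-- The hypersurface ring `R = k[X_1..X_n][y] / (y ^ p - G)`. -/
abbrev R (k : Type*) [Field k] (σ : Type*) [Fintype σ] (p w : ℕ) : Type _ :=
  AdjoinRoot (Polynomial.X ^ p - Polynomial.C (G k σ p w))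

lemma G_pow_p (p w : ℕ) [hp : Fact p.Prime] [CharP k p] :
    (G k σ p w) ^ p = expand p (G k σ p w) := by
  have h1 : ∀ a b : MvPolynomial σ k, (a + b) ^ p = a ^ p + b ^ p := fun a b => add_pow_char a b p
  have h2 : (∑ l : σ, (X l : MvPolynomial σ k) ^ (p * w + 1)) ^ p
      = ∑ l : σ, ((X l : MvPolynomial σ k) ^ (p * w + 1)) ^ p := sum_pow_char p _ _
  rw [G, h1, h2, map_add, map_sum, map_prod, ← Finset.prod_pow]
  congr 1
  · simp
  · refine Finset.sum_congr rfl (fun l _ => ?_)
    rw [map_pow, expand_X, ← pow_mul, ← pow_mul, mul_comm]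

lemma shift_aux {S : Type*} [CommRing S] (c : ℕ → S) (r : S) (p : ℕ) (hp : 0 < p)
    (h : c p = r ^ p * c 0) :
    ∑ j ∈ Finset.range p, c (p - 1 - j + 1) * r ^ j = r * ∑ j ∈ Finset.range p, c (p - 1 - j) * r ^ j := by
  obtain ⟨q, rfl⟩ : ∃ q, p = q + 1 := ⟨p - 1, by omega⟩
  rw [Finset.sum_range_succ', Finset.sum_range_succ (fun j => c (q + 1 - 1 - j) * r ^ j)]
  simp only [Nat.add_sub_cancel, Nat.sub_zero, pow_zero, mul_one, Nat.sub_self, mul_add]
  rw [h]
  congr 1
  · rw [Finset.mul_sum]
    refine Finset.sum_congr rfl (fun j hj => ?_)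
    have := Finset.mem_range.1 hj
    have h1 : q - (j + 1) + 1 = q - j := by omega
    rw [h1, pow_succ]
    ring
  · rw [pow_succ]; ring

section ring

variable (p w : ℕ) [hp : Fact p.Prime] [CharP k p]

/-- The embedding `R → B = k[t]`, `X_l ↦ t_l ^ p`, `y ↦ g`. -/
def iota : R k σ p w →+* MvPolynomial σ k :=
  AdjoinRoot.lift ((expand p : MvPolynomial σ k →ₐ[k] MvPolynomial σ k) : MvPolynomial σ k →+* MvPolynomial σ k)
    (G k σ p w) (by simp [G_pow_p])

@[simp] lemma iota_of (a : MvPolynomial σ k) :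
    iota p w (AdjoinRoot.of (Polynomial.X ^ p - Polynomial.C (G k σ p w)) a) = expand p a := by
  simp [iota]

@[simp] lemma iota_root :
    iota p w (AdjoinRoot.root (Polynomial.X ^ p - Polynomial.C (G k σ p w))) = G k σ p w := by
  simp [iota]

omit hp [CharP k p] in
lemma root_pow : (AdjoinRoot.root (Polynomial.X ^ p - Polynomial.C (G k σ p w))) ^ p
    = AdjoinRoot.of (Polynomial.X ^ p - Polynomial.C (G k σ p w)) (G k σ p w) := by
  have h := AdjoinRoot.eval₂_root (Polynomial.X ^ p - Polynomial.C (G k σ p w))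
  simpa [sub_eq_zero] using h

/-- The splitting `B → R` of `iota`. -/
def psi : MvPolynomial σ k →+ R k σ p w where
  toFun h := ∑ j ∈ Finset.range p, AdjoinRoot.of _ (Tr p (h * (G k σ p w) ^ (p - 1 - j))) * (AdjoinRoot.root _) ^ j
  map_zero' := by simp
  map_add' a b := by
    simp only [add_mul, map_add, Finset.sum_add_distrib]

omit hp [CharP k p] in
lemma psi_apply (h : MvPolynomial σ k) : psi p w h = ∑ j ∈ Finset.range p,
    AdjoinRoot.of (Polynomial.X ^ p - Polynomial.C (G k σ p w)) (Tr p (h * (G k σ p w) ^ (p - 1 - j)))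
      * (AdjoinRoot.root (Polynomial.X ^ p - Polynomial.C (G k σ p w))) ^ j := rfl

omit [CharP k p] in
lemma psi_of (a h : MvPolynomial σ k) : psi p w (expand p a * h)
    = AdjoinRoot.of (Polynomial.X ^ p - Polynomial.C (G k σ p w)) a * psi p w h := by
  rw [psi_apply, psi_apply, Finset.mul_sum]
  refine Finset.sum_congr rfl (fun j _ => ?_)
  rw [mul_assoc, Tr_expand_mul p hp.out.pos, map_mul, mul_assoc]

lemma psi_root (h : MvPolynomial σ k) : psi p w (G k σ p w * h)
    = AdjoinRoot.root (Polynomial.X ^ p - Polynomial.C (G k σ p w)) * psi p w h := by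
  rw [psi_apply, psi_apply]
  have key := shift_aux (fun i => AdjoinRoot.of (Polynomial.X ^ p - Polynomial.C (G k σ p w))
    (Tr p (h * (G k σ p w) ^ i))) (AdjoinRoot.root (Polynomial.X ^ p - Polynomial.C (G k σ p w))) p
    hp.out.pos ?_
  · rw [← key]
    refine Finset.sum_congr rfl (fun j _ => ?_)
    have h1 : G k σ p w * h * G k σ p w ^ (p - 1 - j) = h * G k σ p w ^ (p - 1 - j + 1) := by ring
    rw [h1]
  · show AdjoinRoot.of _ (Tr p (h * (G k σ p w) ^ p)) = _
    rw [root_pow, G_pow_p, mul_comm h, Tr_expand_mul p hp.out.pos, map_mul]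
    simp

lemma psi_iota_mul (r : R k σ p w) (h : MvPolynomial σ k) :
    psi p w (iota p w r * h) = r * psi p w h := by
  induction r using AdjoinRoot.induction_on with
  | ih q =>
    induction q using Polynomial.induction_on' with
    | add a b ha hb => rw [map_add, map_add, add_mul, map_add, ha, hb, add_mul]
    | monomial i a =>
      rw [← Polynomial.C_mul_X_pow_eq_monomial, map_mul (AdjoinRoot.mk _), map_pow (AdjoinRoot.mk _),
        AdjoinRoot.mk_C, AdjoinRoot.mk_X,
        map_mul (iota p w), map_pow (iota p w), iota_of, iota_root, mul_assoc, psi_of]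
      have h1 : ∀ i : ℕ, psi p w (G k σ p w ^ i * h)
          = AdjoinRoot.root (Polynomial.X ^ p - Polynomial.C (G k σ p w)) ^ i * psi p w h := by
        intro i
        induction i with
        | zero => simp
        | succ i ih => rw [pow_succ', mul_assoc, psi_root, ih, pow_succ', mul_assoc]
      rw [h1, mul_assoc]

omit [CharP k p] in
lemma psi_one [Nontrivial σ] : psi p w (1 : MvPolynomial σ k) = 1 := by
  rw [psi_apply, Finset.sum_eq_single 0]
  · rw [one_mul, Nat.sub_zero, Tr_G_pow p w hp.out.pos]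
    simp
  · intro j hj hj0
    rw [one_mul, Tr_G_pow_lt]
    · simp
    · have := Finset.mem_range.1 hj
      omega
  · intro h
    exact absurd (Finset.mem_range.2 hp.out.pos) h

lemma psi_iota [Nontrivial σ] (r : R k σ p w) : psi p w (iota p w r) = r := by
  have := psi_iota_mul p w r 1
  rwa [mul_one, psi_one, mul_one] at this

lemma iota_injective [Nontrivial σ] : Function.Injective (iota (k := k) (σ := σ) p w) :=
  Function.LeftInverse.injective (psi_iota p w)

instance instIsDomain [Nontrivial σ] : IsDomain (R k σ p w) :=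
  (iota_injective (k := k) (σ := σ) p w).isDomain

end ring

section main

variable (p w : ℕ) [hp : Fact p.Prime] [CharP k p] [PerfectRing k p] [Nontrivial σ]

/-- `R` is strongly `F`-regular. -/
theorem sfr (c : R k σ p w) (hc : c ≠ 0) :
    ∃ e : ℕ, 0 < e ∧ ∃ χ : R k σ p w →+ R k σ p w,
      (∀ r x, χ (r ^ (p ^ e) * x) = r * χ x) ∧ χ c = 1 := by
  have hc' : iota p w c ≠ 0 := by
    intro h
    apply hc
    apply iota_injective p w
    rw [h, map_zero]
  obtain ⟨e, he, χ, h1, h2⟩ := phi_exists p (iota p w c) hc'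
  refine ⟨e, he, (psi p w).comp (χ.comp (iota p w).toAddMonoidHom), ?_, ?_⟩
  · intro r x
    show psi p w (χ (iota p w (r ^ (p ^ e) * x))) = r * psi p w (χ (iota p w x))
    rw [map_mul, map_pow, h1, psi_iota_mul]
  · show psi p w (χ (iota p w c)) = 1
    rw [h2, psi_one]

/-- Global form: for every finitely generated `R`-submodule `I` of the fraction field which contains `1`
(for instance `O(D)`, `D` an effective Weil divisor) there is a `p ^ (-e)`-linear map `I → R` with
`1 ↦ 1`. -/
theorem gfr {K : Type*} [Field K] [Algebra (R k σ p w) K] [IsFractionRing (R k σ p w) K]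
    (I : Submodule (R k σ p w) K) (hI : I.FG) (h1 : (1 : K) ∈ I) :
    ∃ e : ℕ, 0 < e ∧ ∃ θ : I →+ R k σ p w,
      (∀ (r : R k σ p w) (x : I), θ ((r ^ (p ^ e)) • x) = r * θ x) ∧ θ ⟨1, h1⟩ = 1 := by
  classical
  obtain ⟨s, hs⟩ := hI
  obtain ⟨b, hb⟩ := IsLocalization.exist_integer_multiples_of_finset (nonZeroDivisors (R k σ p w)) s
  have key : ∀ x ∈ I, ∃ r : R k σ p w, algebraMap (R k σ p w) K r = (b : R k σ p w) • x := by
    intro x hx
    rw [← hs] at hx
    induction hx using Submodule.span_induction with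
    | mem x hx => exact hb x hx
    | zero => exact ⟨0, by simp⟩
    | add x y _ _ hx hy =>
      obtain ⟨u, hu⟩ := hx
      obtain ⟨v, hv⟩ := hy
      exact ⟨u + v, by rw [map_add, hu, hv, smul_add]⟩
    | smul a x _ hx =>
      obtain ⟨u, hu⟩ := hx
      exact ⟨a * u, by rw [map_mul, hu, Algebra.smul_def, Algebra.smul_def, Algebra.smul_def]; ring⟩
  choose ρ hρ using key
  have inj : Function.Injective (algebraMap (R k σ p w) K) := IsFractionRing.injective _ _
  have hb0 : (b : R k σ p w) ≠ 0 := nonZeroDivisors.ne_zero b.2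
  obtain ⟨e, he, χ, hχ1, hχ2⟩ := sfr p w (b : R k σ p w) hb0
  let ρ' : I →+ R k σ p w :=
    { toFun := fun x => ρ x.1 x.2
      map_zero' := by
        apply inj
        rw [hρ]
        simp
      map_add' := by
        intro x y
        apply inj
        rw [map_add, hρ, hρ, hρ]
        simp }
  refine ⟨e, he, χ.comp ρ', ?_, ?_⟩
  · intro r x
    show χ (ρ _ _) = r * χ (ρ _ _)
    rw [← hχ1]
    congr 1
    apply inj
    rw [map_mul, hρ, hρ]
    simp only [Submodule.coe_smul, Algebra.smul_def]
    ring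
  · show χ (ρ _ _) = 1
    rw [← hχ2]
    congr 1
    apply inj
    rw [hρ]
    simp [Algebra.smul_def]

omit [PerfectRing k p] in
/-- `R` is normal. -/
theorem normal : IsIntegrallyClosed (R k σ p w) := by
  rw [isIntegrallyClosed_iff (FractionRing (R k σ p w))]
  intro x hx
  have hinj : Function.Injective ((algebraMap (MvPolynomial σ k) (FractionRing (MvPolynomial σ k))).comp
      (iota p w)) := (IsFractionRing.injective _ _).comp (iota_injective p w)
  let F : FractionRing (R k σ p w) →+* FractionRing (MvPolynomial σ k) := IsFractionRing.lift hinj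
  have hF : ∀ r, F (algebraMap _ _ r) = algebraMap (MvPolynomial σ k) (FractionRing (MvPolynomial σ k))
      (iota p w r) := fun r => IsFractionRing.lift_algebraMap hinj r
  have h1 : IsIntegral (MvPolynomial σ k) (F x) :=
    hx.map_of_comp_eq (iota p w) F (RingHom.ext (fun r => (hF r).symm))
  obtain ⟨z, hz⟩ := IsIntegrallyClosed.isIntegral_iff.1 h1
  obtain ⟨a, b, hb, rfl⟩ := IsFractionRing.div_surjective (A := R k σ p w) x
  refine ⟨psi p w z, ?_⟩
  have hb0 : b ≠ 0 := nonZeroDivisors.ne_zero hb
  have hb1 : algebraMap (R k σ p w) (FractionRing (R k σ p w)) b ≠ 0 := by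
    intro h
    exact hb0 (IsFractionRing.injective (R k σ p w) (FractionRing (R k σ p w)) (by rw [h, map_zero]))
  have h2 : iota p w a = iota p w b * z := by
    apply IsFractionRing.injective (MvPolynomial σ k) (FractionRing (MvPolynomial σ k))
    rw [map_mul, hz, map_div₀, hF, hF]
    rw [mul_div_cancel₀]
    rw [← hF]
    exact (map_ne_zero F).2 hb1
  have h3 : a = b * psi p w z := by
    have := congrArg (psi p w) h2
    rwa [psi_iota, psi_iota_mul] at this
  rw [h3, map_mul, mul_div_cancel_left₀ _ hb1]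

end main

end

end SFR25
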